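import Mathlib

/-!
A polynomial function which is topologically trivial at infinity at every value, while `0` is
an asymptotic nonregular value for the squared distance to every centre.
-/

namespace Pool.Agent.Results.MP_025584_ag.RhoNonregular

open Filter Topology TopologicalSpace Manifold ContDiff

/-- Euclidean space of dimension `n`. -/
abbrev E (n : ℕ) := EuclideanSpace ℝ (Fin n)

/-- The polynomial function `ℝ ^ n → ℝ` attached to a polynomial. -/
noncomputable def fn {n : ℕ} (P : MvPolynomial (Fin n) ℝ) : E n → ℝ :=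
  fun x => MvPolynomial.eval (fun i => x i) P

/-- The open subset `V` of the normed space `A` is diffeomorphic to `U × F` over `U`, by a
smooth diffeomorphism whose first component is `f`; here `F` is a smooth manifold modelled on
the normed space `B`. -/
def DiffeoOver {A B : Type} [NormedAddCommGroup A] [NormedSpace ℝ A] [NormedAddCommGroup B]
    [NormedSpace ℝ B] (f : A → ℝ) (V : Opens A) (U : Opens ℝ) (F : Type)
    [TopologicalSpace F] [ChartedSpace B F] : Prop :=
  ∃ Φ : Diffeomorph 𝓘(ℝ, A) (𝓘(ℝ, ℝ).prod 𝓘(ℝ, B)) V (U × F) ∞, ∀ x : V, ((Φ x).1 : ℝ) = f x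

/-- There is a smooth manifold `F` such that `V` is diffeomorphic to `U × F` over `U` via `f`
(the dimension `d` of `F` is then automatically `n - 1`, unless `F` is empty). -/
def TrivialOver {n : ℕ} (f : E n → ℝ) (V : Opens (E n)) (U : Opens ℝ) : Prop :=
  ∃ (d : ℕ) (F : Type) (_ : TopologicalSpace F) (_ : ChartedSpace (E d) F),
    IsManifold (𝓡 d) ∞ F ∧ DiffeoOver (B := E d) f V U F

/-- `f` is topologically trivial at infinity at `t₀`: there are a compact set `K` and an open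
interval `D` centred at `t₀` such that `f` restricted to `f ⁻¹ (D) \ K` is a locally trivial
smooth fibration over `D`, that is, every `t` in `D` has an open neighbourhood `U` in `D` such
that the open set `f ⁻¹ (U) \ K` is diffeomorphic to `U × F` over `U`, for some smooth manifold
`F`. -/
def TrivialAtInfinity {n : ℕ} (f : E n → ℝ) (t₀ : ℝ) : Prop :=
  ∃ K : Set (E n), IsCompact K ∧ ∃ r : ℝ, 0 < r ∧ ∀ t ∈ Metric.ball t₀ r,
    ∃ U : Opens ℝ, t ∈ U ∧ (U : Set ℝ) ⊆ Metric.ball t₀ r ∧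
    ∃ V : Opens (E n), (V : Set (E n)) = f ⁻¹' U \ K ∧ TrivialOver f V U

/-- The set of bifurcation values at infinity. -/
def BInf {n : ℕ} (f : E n → ℝ) : Set ℝ := {t₀ | ¬ TrivialAtInfinity f t₀}

/-- The Milnor set with centre `a`: the points `x` where the gradient of `f` and `x - a` are
linearly dependent. -/
def Milnor {n : ℕ} (f : E n → ℝ) (a : E n) : Set (E n) :=
  {x | ¬ LinearIndependent ℝ ![gradient f x, x - a]}

/-- The asymptotic nonregular values for the squared distance to `a`. -/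
def SA {n : ℕ} (f : E n → ℝ) (a : E n) : Set ℝ :=
  {t₀ | ∃ x : ℕ → E n, (∀ j, x j ∈ Milnor f a) ∧ Tendsto (fun j => ‖x j‖) atTop atTop ∧
    Tendsto (fun j => f (x j)) atTop (𝓝 t₀)}

/-- The intersection of the sets `SA f a` over all centres `a`. -/
def SInf {n : ℕ} (f : E n → ℝ) : Set ℝ := ⋂ a : E n, SA f a

/-- the quadratic polynomial used in the construction -/
def q (s : ℝ) : ℝ := s ^ 2 + 5 * s + 7

theorem q_pos (s : ℝ) : 0 < q s := by
  unfold q
  nlinarith [sq_nonneg (s + 5 / 2)]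

/-- the polynomial -/
noncomputable def PP (m : ℕ) : MvPolynomial (Fin (m + 2)) ℝ :=
  MvPolynomial.X 1 * ((MvPolynomial.X 0 * MvPolynomial.X 1) ^ 2
    + MvPolynomial.C 5 * (MvPolynomial.X 0 * MvPolynomial.X 1) + MvPolynomial.C 7)

theorem fn_PP (m : ℕ) (x : E (m + 2)) : fn (PP m) x = x 1 * q (x 0 * x 1) := by
  simp [fn, PP, q]

/-- the forward map -/
noncomputable def fw (m : ℕ) (x : E (m + 2)) : ℝ × E (m + 1) :=
  (x 1 * q (x 0 * x 1), WithLp.toLp 2 (Fin.cons (x 0 / q (x 0 * x 1)) (fun i => x i.succ.succ)))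

/-- the backward map -/
noncomputable def bw (m : ℕ) (z : ℝ × E (m + 1)) : E (m + 2) :=
  WithLp.toLp 2 (Fin.cons (z.2 0 * q (z.1 * z.2 0)) (Fin.cons (z.1 / q (z.1 * z.2 0))
    (fun i => z.2 i.succ)))

theorem bw_fw (m : ℕ) (x : E (m + 2)) : bw m (fw m x) = x := by
  have h := (q_pos (x 0 * x 1)).ne'
  have e : x 1 * q (x 0 * x 1) * (x 0 / q (x 0 * x 1)) = x 0 * x 1 := by
    generalize q (x 0 * x 1) = c at h
    field_simp
  ext i
  refine Fin.cases ?_ (fun i => ?_) i
  · simp only [bw, fw, Fin.cons_zero, e]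
    field_simp
  · refine Fin.cases ?_ (fun i => ?_) i
    · simp only [bw, fw, Fin.cons_zero, Fin.cons_succ, e]
      rw [mul_div_assoc, div_self h, mul_one]
      rfl
    · simp only [bw, fw, Fin.cons_succ]

theorem fw_bw (m : ℕ) (z : ℝ × E (m + 1)) : fw m (bw m z) = z := by
  have h := (q_pos (z.1 * z.2 0)).ne'
  have e : z.2 0 * q (z.1 * z.2 0) * (z.1 / q (z.1 * z.2 0)) = z.1 * z.2 0 := by
    generalize q (z.1 * z.2 0) = c at h
    field_simp
  have e0 : bw m z 0 = z.2 0 * q (z.1 * z.2 0) := rfl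
  have e1 : bw m z 1 = z.1 / q (z.1 * z.2 0) := rfl
  refine Prod.ext ?_ ?_
  · simp only [fw, e0, e1, e]
    field_simp
  · ext i
    refine Fin.cases ?_ (fun i => ?_) i
    · simp only [fw, Fin.cons_zero, e0, e1, e]
      exact mul_div_cancel_right₀ _ h
    · simp only [fw, bw, Fin.cons_succ]

theorem contDiff_fw (m : ℕ) : ContDiff ℝ ∞ (fw m) := by
  have hq : ContDiff ℝ ∞ (fun x : E (m + 2) => q (x 0 * x 1)) := by
    unfold q
    fun_prop
  refine ContDiff.prodMk ?_ ?_
  · exact ContDiff.mul (by fun_prop) hq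
  · rw [contDiff_euclidean]
    intro i
    refine Fin.cases ?_ (fun i => ?_) i
    · simp only [Fin.cons_zero]
      exact ContDiff.div (by fun_prop) hq fun x => (q_pos _).ne'
    · simp only [Fin.cons_succ]
      fun_prop

theorem contDiff_bw (m : ℕ) : ContDiff ℝ ∞ (bw m) := by
  have hq : ContDiff ℝ ∞ (fun z : ℝ × E (m + 1) => q (z.1 * z.2 0)) := by
    unfold q
    fun_prop
  unfold bw
  rw [contDiff_euclidean]
  intro i
  refine Fin.cases ?_ (fun i => ?_) i
  · simp only [Fin.cons_zero]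
    exact ContDiff.mul (by fun_prop) hq
  · refine Fin.cases ?_ (fun i => ?_) i
    · simp only [Fin.cons_zero, Fin.cons_succ]
      exact ContDiff.div (by fun_prop) hq fun x => (q_pos _).ne'
    · simp only [Fin.cons_succ]
      fun_prop

theorem trivialAtInfinity (m : ℕ) (t₀ : ℝ) : TrivialAtInfinity (fn (PP m)) t₀ := by
  refine ⟨∅, isCompact_empty, 1, one_pos, fun t ht => ?_⟩
  have hcont : Continuous (fn (PP m)) := by
    have : fn (PP m) = fun x => (fw m x).1 := by
      funext x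
      rw [fn_PP]
      rfl
    rw [this]
    exact (contDiff_fw m).continuous.fst
  let U : Opens ℝ := ⟨Metric.ball t₀ 1, Metric.isOpen_ball⟩
  let V : Opens (E (m + 2)) := ⟨fn (PP m) ⁻¹' U, U.2.preimage hcont⟩
  refine ⟨U, ht, subset_rfl, V, (Set.sdiff_empty).symm, m + 1, E (m + 1), inferInstance, inferInstance,
    inferInstance, ?_⟩
  have hV : ∀ x : V, (fw m x.1).1 ∈ U := fun x => by
    have := x.2
    have h2 : fn (PP m) x.1 = (fw m x.1).1 := by
      rw [fn_PP]
      rfl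
    rw [← h2]
    exact this
  have hU : ∀ z : U × E (m + 1), bw m (z.1.1, z.2) ∈ V := fun z => by
    show fn (PP m) (bw m (z.1.1, z.2)) ∈ U
    have h2 : fn (PP m) (bw m (z.1.1, z.2)) = (fw m (bw m (z.1.1, z.2))).1 := by
      rw [fn_PP]
      rfl
    rw [h2, fw_bw]
    exact z.1.2
  let Φ : V ≃ U × E (m + 1) :=
    { toFun := fun x => (⟨(fw m x.1).1, hV x⟩, (fw m x.1).2)
      invFun := fun z => ⟨bw m (z.1.1, z.2), hU z⟩
      left_inv := fun x => Subtype.ext (bw_fw m x.1)
      right_inv := fun z => by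
        have := fw_bw m (z.1.1, z.2)
        refine Prod.ext (Subtype.ext ?_) ?_
        · exact congrArg (fun w => w.1) this
        · exact congrArg (fun w => w.2) this }
  have s1 : ContMDiff (𝓡 (m + 2)) (𝓘(ℝ, ℝ).prod (𝓡 (m + 1))) ∞ (Φ : V → U × E (m + 1)) := by
    have hfw := (contDiff_fw m).contMDiff
    have hval : ContMDiff (𝓡 (m + 2)) (𝓡 (m + 2)) ∞ (Subtype.val : V → E (m + 2)) :=
      contMDiff_subtype_val
    have hc := hfw.comp hval
    refine ContMDiff.prodMk ?_ ?_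
    · rw [← ContMDiff.subtypeVal_comp_iff]
      exact (contDiff_fst.contMDiff).comp hc
    · exact (contDiff_snd.contMDiff).comp hc
  have s2 : ContMDiff (𝓘(ℝ, ℝ).prod (𝓡 (m + 1))) (𝓡 (m + 2)) ∞
      (Φ.symm : U × E (m + 1) → V) := by
    rw [← ContMDiff.subtypeVal_comp_iff]
    have hval : ContMDiff (𝓘(ℝ, ℝ)) (𝓘(ℝ, ℝ)) ∞ (Subtype.val : U → ℝ) :=
      contMDiff_subtype_val
    have h1 : ContMDiff (𝓘(ℝ, ℝ).prod (𝓡 (m + 1))) (𝓘(ℝ, ℝ)) ∞
        (fun z : U × E (m + 1) => z.1.1) := hval.comp contMDiff_fst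
    have h2 : ContMDiff (𝓘(ℝ, ℝ).prod (𝓡 (m + 1))) (𝓡 (m + 1)) ∞
        (fun z : U × E (m + 1) => z.2) := contMDiff_snd
    have h3 : ContMDiff (𝓘(ℝ, ℝ).prod (𝓡 (m + 1))) (𝓘(ℝ, ℝ × E (m + 1))) ∞
        (fun z : U × E (m + 1) => (z.1.1, z.2)) := h1.prodMk_space h2
    exact (contDiff_bw m).contMDiff.comp h3
  refine ⟨⟨Φ, s1, s2⟩, fun x => ?_⟩
  rw [fn_PP]
  rfl

/-- first derivative in the direction of the first coordinate -/
def fx (x y : ℝ) : ℝ := y ^ 2 * (2 * (x * y) + 5)

/-- first derivative in the direction of the second coordinate -/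
def fy (x y : ℝ) : ℝ := (3 * (x * y) + 7) * (x * y + 1)

theorem hasGradientAt (m : ℕ) (p : E (m + 2)) :
    HasGradientAt (fn (PP m)) (fx (p 0) (p 1) • EuclideanSpace.single 0 1
      + fy (p 0) (p 1) • EuclideanSpace.single 1 1) p := by
  rw [hasGradientAt_iff_hasFDerivAt]
  have h0 : HasFDerivAt (fun x : E (m + 2) => x 0) (EuclideanSpace.proj (𝕜 := ℝ) 0) p :=
    (EuclideanSpace.proj (𝕜 := ℝ) (0 : Fin (m + 2))).hasFDerivAt
  have h1 : HasFDerivAt (fun x : E (m + 2) => x 1) (EuclideanSpace.proj (𝕜 := ℝ) 1) p :=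
    (EuclideanSpace.proj (𝕜 := ℝ) (1 : Fin (m + 2))).hasFDerivAt
  have hs := h0.mul h1
  have hq := ((hs.pow 2).add (hs.const_mul 5)).add_const 7
  have hf := h1.mul hq
  have e : fn (PP m) = (fun x : E (m + 2) => x 1) *
      (fun x : E (m + 2) => (x 0 * x 1) ^ 2 + 5 * (x 0 * x 1) + 7) := by
    funext x
    rw [fn_PP]
    rfl
  rw [e]
  refine hf.congr_fderiv ?_
  ext w
  have i0 : inner ℝ (EuclideanSpace.single (0 : Fin (m + 2)) (1 : ℝ)) w = w 0 := by
    rw [EuclideanSpace.inner_single_left]; simp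
  have i1 : inner ℝ (EuclideanSpace.single (1 : Fin (m + 2)) (1 : ℝ)) w = w 1 := by
    rw [EuclideanSpace.inner_single_left]; simp
  simp [fx, fy, i0, i1]
  ring

theorem mem_milnor (m : ℕ) (a p : E (m + 2))
    (hdet : fx (p 0) (p 1) * (p 1 - a 1) = fy (p 0) (p 1) * (p 0 - a 0))
    (hrest : ∀ i : Fin m, p i.succ.succ = a i.succ.succ) :
    p ∈ Milnor (fn (PP m)) a := by
  intro hli
  rw [(hasGradientAt m p).gradient, LinearIndependent.pair_iff] at hli
  set G : E (m + 2) := fx (p 0) (p 1) • EuclideanSpace.single 0 1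
      + fy (p 0) (p 1) • EuclideanSpace.single 1 1 with hG
  have G0 : G 0 = fx (p 0) (p 1) := by simp [hG]
  have G1 : G 1 = fy (p 0) (p 1) := by simp [hG]
  have Gr : ∀ i : Fin m, G i.succ.succ = 0 := fun i => by
    have h1 : (i.succ.succ : Fin (m + 2)) ≠ 0 := Fin.succ_ne_zero _
    have h2 : (i.succ.succ : Fin (m + 2)) ≠ 1 := by
      intro h
      exact Fin.succ_ne_zero i (Fin.succ_injective _ h)
    simp [hG, h1, h2]
  have w0 : (p - a) 0 = p 0 - a 0 := rfl
  have w1 : (p - a) 1 = p 1 - a 1 := rfl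
  have wr : ∀ i : Fin m, (p - a) i.succ.succ = 0 := fun i => by
    have : (p - a) i.succ.succ = p i.succ.succ - a i.succ.succ := rfl
    rw [this, hrest, sub_self]
  have hvec : ∀ s t : ℝ, s * G 0 + t * (p - a) 0 = 0 → s * G 1 + t * (p - a) 1 = 0 →
      s • G + t • (p - a) = 0 := by
    intro s t e0 e1
    ext i
    refine Fin.cases ?_ (fun i => ?_) i
    · exact e0
    · refine Fin.cases ?_ (fun i => ?_) i
      · exact e1
      · show s * G i.succ.succ + t * (p - a) i.succ.succ = 0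
        rw [Gr, wr]; ring
  have k1 := hli ((p - a) 0) (-(G 0)) (hvec _ _ (by ring) (by
    rw [G0, G1, w0, w1]; linarith))
  have k2 := hli ((p - a) 1) (-(G 1)) (hvec _ _ (by
    rw [G0, G1, w0, w1]; linarith) (by ring))
  have k3 := hli 1 0 (hvec _ _ (by
    rw [neg_eq_zero.mp k1.2]; ring) (by rw [neg_eq_zero.mp k2.2]; ring))
  exact one_ne_zero k3.1

/-- the function whose zeros are the Milnor points on a fibre -/
noncomputable def hh (a0 a1 t s : ℝ) : ℝ :=
  (s * q s - a0 * t) * ((3 * s + 7) * (s + 1)) - t ^ 3 * (t / q s - a1) * (2 * s + 5) / q s ^ 2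

theorem continuous_hh (a0 a1 t : ℝ) : Continuous (hh a0 a1 t) := by
  have hq : Continuous q := by unfold q; fun_prop
  unfold hh
  refine Continuous.sub (by fun_prop) ?_
  refine Continuous.div ?_ (hq.pow 2) fun s => (pow_pos (q_pos s) 2).ne'
  refine Continuous.mul (Continuous.mul continuous_const ?_) (by fun_prop)
  exact (continuous_const.div hq fun s => (q_pos s).ne').sub continuous_const

theorem eventually_point (m : ℕ) (a : E (m + 2)) : ∀ᶠ t in 𝓝[>] (0 : ℝ),
    ∃ p ∈ Milnor (fn (PP m)) a, fn (PP m) p = t ∧ (3 / 8) / t ≤ ‖p‖ := by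
  have c1 : Tendsto (fun t : ℝ => hh (a 0) (a 1) t (-1 / 2)) (𝓝[>] 0)
      (𝓝 (hh (a 0) (a 1) 0 (-1 / 2))) := by
    refine Tendsto.mono_left ?_ nhdsWithin_le_nhds
    have : Continuous (fun t : ℝ => hh (a 0) (a 1) t (-1 / 2)) := by
      unfold hh; fun_prop
    exact this.tendsto 0
  have c2 : Tendsto (fun t : ℝ => hh (a 0) (a 1) t (-3 / 2)) (𝓝[>] 0)
      (𝓝 (hh (a 0) (a 1) 0 (-3 / 2))) := by
    refine Tendsto.mono_left ?_ nhdsWithin_le_nhds
    have : Continuous (fun t : ℝ => hh (a 0) (a 1) t (-3 / 2)) := by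
      unfold hh; fun_prop
    exact this.tendsto 0
  have v1 : hh (a 0) (a 1) 0 (-1 / 2) < 0 := by unfold hh q; norm_num
  have v2 : 0 < hh (a 0) (a 1) 0 (-3 / 2) := by unfold hh q; norm_num
  filter_upwards [c1.eventually_lt_const v1, c2.eventually_const_lt v2, self_mem_nhdsWithin]
    with t h1 h2 ht
  have ht0 : (0 : ℝ) < t := ht
  obtain ⟨s, hs, hs0⟩ : ∃ s ∈ Set.Icc (-3 / 2 : ℝ) (-1 / 2), hh (a 0) (a 1) t s = 0 := by
    have := intermediate_value_Icc' (by norm_num : (-3 / 2 : ℝ) ≤ -1 / 2)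
      (continuous_hh (a 0) (a 1) t).continuousOn
    exact this ⟨h1.le, h2.le⟩
  have hq0 := q_pos s
  have hq1 : 3 / 4 ≤ q s := by unfold q; nlinarith [sq_nonneg (s + 5 / 2)]
  let p : E (m + 2) := WithLp.toLp 2 (Fin.cons (s * q s / t) (Fin.cons (t / q s)
    (fun i => a i.succ.succ)))
  have p0 : p 0 = s * q s / t := rfl
  have p1 : p 1 = t / q s := rfl
  have hs' : p 0 * p 1 = s := by
    rw [p0, p1]
    field_simp
  refine ⟨p, mem_milnor m a p ?_ (fun i => rfl), ?_, ?_⟩
  · unfold fx fy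
    rw [hs', p0, p1]
    unfold hh at hs0
    have ht' := ht0.ne'
    have hq' := hq0.ne'
    generalize q s = c at *
    field_simp at hs0 ⊢
    linarith
  · rw [fn_PP, hs', p1]
    field_simp
  · have h3 : |p 0| ≤ ‖p‖ := by
      have := PiLp.norm_apply_le p 0
      simpa using this
    refine le_trans ?_ h3
    rw [p0, abs_div, abs_mul, abs_of_pos ht0, abs_of_pos hq0]
    have : 1 / 2 ≤ |s| := by
      rw [abs_of_nonpos (by linarith [hs.2])]
      linarith [hs.2]
    gcongr
    nlinarith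

theorem zero_mem_SA (m : ℕ) (a : E (m + 2)) : (0 : ℝ) ∈ SA (fn (PP m)) a := by
  have ht : Tendsto (fun j : ℕ => 1 / ((j : ℝ) + 1)) atTop (𝓝[>] 0) := by
    refine tendsto_nhdsWithin_iff.mpr ⟨tendsto_one_div_add_atTop_nhds_zero_nat, ?_⟩
    exact Eventually.of_forall fun j => by
      show (0 : ℝ) < 1 / ((j : ℝ) + 1)
      positivity
  have h := ht.eventually (eventually_point m a)
  rw [eventually_atTop] at h
  obtain ⟨J, hJ⟩ := h
  choose x hx1 hx2 hx3 using fun j : ℕ => hJ (j + J) (Nat.le_add_left J j)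
  have ht2 : Tendsto (fun j : ℕ => 1 / (((j + J : ℕ) : ℝ) + 1)) atTop (𝓝[>] 0) :=
    ht.comp (tendsto_add_atTop_nat J)
  refine ⟨x, hx1, ?_, ?_⟩
  · refine tendsto_atTop_mono hx3 ?_
    have h1 : Tendsto (fun t : ℝ => (3 / 8) / t) (𝓝[>] 0) atTop := by
      have := tendsto_inv_nhdsGT_zero (𝕜 := ℝ)
      simp only [div_eq_mul_inv]
      exact this.const_mul_atTop (by norm_num)
    exact h1.comp ht2
  · have : (fun j => fn (PP m) (x j)) = fun j : ℕ => 1 / (((j + J : ℕ) : ℝ) + 1) :=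
      funext hx2
    rw [this]
    exact tendsto_nhds_of_tendsto_nhdsWithin ht2

/-- In every dimension `n ≥ 2` there is a polynomial function on `ℝ ^ n` which is
topologically trivial at infinity at every value, although `0` is an asymptotic nonregular
value for the squared distance to every centre. -/
theorem result (n : ℕ) (hn : 2 ≤ n) : ∃ P : MvPolynomial (Fin n) ℝ,
    BInf (fn P) = ∅ ∧ (0 : ℝ) ∈ SInf (fn P) := by
  obtain ⟨m, rfl⟩ : ∃ m, n = m + 2 := ⟨n - 2, by omega⟩
  refine ⟨PP m, ?_, ?_⟩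
  · rw [Set.eq_empty_iff_forall_notMem]
    exact fun t ht => ht (trivialAtInfinity m t)
  · exact Set.mem_iInter.mpr fun a => zero_mem_SA m a

end Pool.Agent.Results.MP_025584_ag.RhoNonregular
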